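import Pool.Agent.Helper73.RF.TSdefs
import Pool.Agent.Helper47.SN.SNdefs

/-!
# Project FLG, `n = 3`: from metrics on the unit sphere of `ℝ⁴` to metrics in the quaternionic frame

`SN.RMetric 3` (matrix field `G` on `ℝ⁴ \ 0`, `G x = x`) and `TS.RMetric` (Gram matrix in the frame `E_i(x) = x e_i`) describe the same
objects.  `TS` is the theorem for `n = 3` (`Pool/Agent/Results/MP_c98eff_gt/ThreeSpheres.lean`); here it is transported to `SN`.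
-/

set_option autoImplicit false

namespace Pool.Agent.Helper47.T3

open Finset MeasureTheory Pool.Agent.Helper73

/-- coordinates of a quaternion -/
noncomputable def ofQ (q : TS.HH) : SN.EE 3 := WithLp.toLp 2 ![q.re, q.imI, q.imJ, q.imK]

/-- the vector `x e_i` -/
noncomputable def qv (i : Fin 3) (x : SN.EE 3) : SN.EE 3 := ofQ (TS.toQ x * TS.qe i)

/-- the Gram matrix in the frame `E_i` -/
noncomputable def g3 (G : SN.MF 3) : TS.MF := fun q => Matrix.of fun i j =>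
  SN.ip G (ofQ q) (fun a => qv i (ofQ q) a) (fun a => qv j (ofQ q) a) / ‖q‖ ^ 2

/-- T3A (0.8 h).  Elementary facts.  `toQ`, `ofQ` are inverse linear isometries (`Quaternion` norm: `‖q‖² = re² + imI² + imJ² + imK²`), so Lipschitz,
smooth.  `qv i x` are the explicit linear expressions, `x/|x|, x e_1/|x|, x e_2/|x|, x e_3/|x|` is an orthonormal basis of `ℝ⁴`.  Every `w ⊥ x`, `|x| = 1`, is
`∑ v_i x e_i` with `v = fr (toQ x) (toQ w)`. -/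
def A_T3A : Prop :=
  (∀ x : SN.EE 3, ofQ (TS.toQ x) = x ∧ ‖TS.toQ x‖ = ‖x‖) ∧ (∀ q : TS.HH, TS.toQ (ofQ q) = q ∧ ‖ofQ q‖ = ‖q‖) ∧
  (∀ x y : SN.EE 3, TS.toQ (x + y) = TS.toQ x + TS.toQ y ∧ TS.toQ (x - y) = TS.toQ x - TS.toQ y) ∧
  (∀ (r : ℝ) (x : SN.EE 3), TS.toQ (r • x) = r • TS.toQ x) ∧
  ContDiff ℝ ((⊤ : ℕ∞) : WithTop ℕ∞) TS.toQ ∧ ContDiff ℝ ((⊤ : ℕ∞) : WithTop ℕ∞) ofQ ∧
  (∀ (i j : Fin 3) (x : SN.EE 3), (∑ a, qv i x a * x a = 0) ∧ (∑ a, qv i x a * qv j x a) = if i = j then ‖x‖ ^ 2 else 0) ∧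
  (∀ x : SN.EE 3, ‖x‖ = 1 → ∀ w : Fin (3 + 1) → ℝ, SN.Tan x w →
    w = fun a => ∑ i, TS.fr (TS.toQ x) (TS.toQ (WithLp.toLp 2 w)) i * qv i x a) ∧
  (∀ x : SN.EE 3, ‖x‖ = 1 → ∀ v : Fin 3 → ℝ, SN.Tan x (fun a => ∑ i, v i * qv i x a) ∧
    TS.fr (TS.toQ x) (TS.toQ (WithLp.toLp 2 (fun a => ∑ i, v i * qv i x a))) = v)

/-- T3M (1 h, T3A).  `g3 G` is a metric.  Smooth on `{0}ᶜ`, constant on rays (`ip` of `qv` is quadratic in `x`), positive definite (`qv i x` are linearly independent). -/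
def A_T3M : Prop := ∀ M : SN.RMetric 3, ∃ M' : TS.RMetric, M'.g = g3 M.G

/-- T3D (1.2 h, T3A).  Distances and diameter.  For a curve `c` in the sphere of `ℝ⁴` (Lipschitz, `‖c‖ = 1`) let `c' = toQ ∘ c`; where `c` is differentiable
`deriv c' = toQ (deriv c)`, `deriv c ⊥ c`, and `ip G c' c' = ip (g3 G) (fr ..) (fr ..)` (T3A); where it is not differentiable both derivatives are `0`.  So `glen` agree,
`Joins` correspond, `gdist` and `gdiam` agree. -/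
def A_T3D : Prop := ∀ M : SN.RMetric 3, (∀ x y : SN.EE 3, TS.gdist (g3 M.G) (TS.toQ x) (TS.toQ y) = SN.gdist M.G x y) ∧
  TS.gdiam (g3 M.G) = SN.gdiam M.G

/-- T3V (0.8 h, T3A).  Volume.  `|x| = 1`: with the orthogonal matrix `O = (x, x e_1, x e_2, x e_3)`, `Oᵀ G O` is block diagonal with blocks `1` (`G x = x`) and
`g3`, so the determinants agree; `EE 3 = EuclideanSpace ℝ (Fin 4)` definitionally. -/
def A_T3V : Prop := ∀ M : SN.RMetric 3, TS.gvol (g3 M.G) = SN.gvol M.G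

/-- covariant derivative of the fields `qv j` in cartesian coordinates: `(∇_{qv i} qv j)^c`, metric `h` -/
noncomputable def cvd (h : SN.MF 3) (i j : Fin 3) (c : Fin (3 + 1)) (x : SN.EE 3) : ℝ :=
  fderiv ℝ (fun y => qv j y c) x (qv i x) + ∑ a, ∑ b, SN.Chr h a b c x * qv i x a * qv j x b

/-- T3C (2 h, T3A).  The connection.  `h = cyl G`, `X_i = qv i`, `h(X_i, X_j) = (g3 G)_ij`, `h(X_i, x) = 0`, `E_i f = X_i f`.  `[X_i, X_j] = 2 ∑ eps i j k X_k` (linear fields).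
`N_ij = ∇_{X_i} X_j` (`cvd`) is torsion free, `N_ij - N_ji = [X_i,X_j]`, and metric: `X_i h(X_j,X_k) = h(N_ij,X_k) + h(X_j,N_ik)` (from `∂_a h_bc = ∑ Chr_ab^d h_dc + ∑ Chr_ac^d h_db`, h symmetric);
Koszul: `h(N_ij, X_k) = GamL (g3 G) i j k`.  `h(N_ij, x) = 0`: `x` is parallel: `∂_a (x_b/|x|²) = ∑_c Chr h a b c x_c/|x|²` (`Pool.Agent.Helper64.RFn.SCA2`, CHRn, CYCn: `∑_c Chr (cyl G) a b c x_c =
δ_ab - 2 x_a x_b/|x|²`), so `h(N_ij,x) = X_i h(X_j, x) - h(X_j, ∇_{X_i} x)`, and both vanish: `∇_a x^c = 0`.  So `N_ij^c = ∑_k Gam (g3 G) i j k X_k^c`. -/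
def A_T3C : Prop := ∀ M : SN.RMetric 3, ∀ x : SN.EE 3, x ≠ 0 → ∀ i j c,
  cvd (SN.cyl M.G) i j c x = ∑ k, TS.Gam (g3 M.G) i j k (TS.toQ x) * qv k x c

/-- T3R (2 h, T3A, T3C).  The curvature.  `R(X_i,X_j)X_k = ∇_i ∇_j X_k - ∇_j ∇_i X_k - 2 ∑ eps i j m ∇_m X_k`, with T3C: `= ∑_l Rup (g3 G) i j k l X_l`; in coordinates the same
expression is `∑_abc Rup (cyl G) a b c d X_i^a X_j^b X_k^c` (the terms with derivatives of the `X` cancel; second derivatives of the linear fields vanish).  Contract with `h(·, X_l)`. -/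
def A_T3R : Prop := ∀ M : SN.RMetric 3, ∀ x : SN.EE 3, x ≠ 0 → ∀ i j k l : Fin 3,
  (∑ a, ∑ b, ∑ c, ∑ d, SN.Rm (SN.cyl M.G) a b c d x * qv i x a * qv j x b * qv k x c * qv l x d) =
    TS.Rm (g3 M.G) i j k l (TS.toQ x)

/-- T3P (1 h, T3A, T3R).  Pinching: tangent vectors `u = ∑ u_i x e_i`; `curv`, `ar` and linear independence correspond. -/
def A_T3P : Prop := ∀ (M : SN.RMetric 3) (δ : ℝ) (x : SN.EE 3), ‖x‖ = 1 → SN.PinchedAt δ M.G x → TS.PinchedAt δ (g3 M.G) (TS.toQ x)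

/-- the theorem for `n = 3`, in the language of `SN` -/
def Main3 : Prop := ∀ δ : ℝ, 0 < δ → ∃ ε : ℝ, 0 < ε ∧ ∀ M : SN.RMetric 3, (∀ x : SN.EE 3, ‖x‖ = 1 → SN.PinchedAt δ M.G x) →
  ε * SN.gdiam M.G ^ 3 ≤ SN.gvol M.G

/-- T3F (0.4 h, T3M, T3D, T3V, T3P).  Assembly from the theorem `TS.ts` (`Pool/Agent/Helper73/RF/TS.lean`). -/
def A_T3F : Prop := (∀ δ : ℝ, 0 < δ → ∃ ε : ℝ, 0 < ε ∧ ∀ M : TS.RMetric, (∀ x : TS.HH, ‖x‖ = 1 → TS.PinchedAt δ M.g x) →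
  ε * TS.gdiam M.g ^ 3 ≤ TS.gvol M.g) → Main3

end Pool.Agent.Helper47.T3
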