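import Pool.Agent.Helper73.RF.TS
import Pool.Agent.Helper73.RF.Asm
import Pool.Agent.Helper16.T3.T3D
import Pool.Agent.Helper32.T3.T3P
import Pool.Agent.Helper61.T3.T3A
import Pool.Agent.Helper61.T3.T3V
import Pool.Agent.Helper79.T3.T3C
import Pool.Agent.Helper75.T3.T3R
import Pool.Agent.Helper87.T3.T3F
import Pool.Agent.Helper93.T3.T3M

/-!
# Project FLG: the case `n = 3`
-/

set_option autoImplicit false

namespace Pool.Agent.Helper47.T3

open Pool.Agent.Helper73

theorem main3 : Main3 :=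
  t_T3F (t_T3M t_T3A) (Pool.Agent.Helper16.T3.t_T3D t_T3A) (t_T3V t_T3A) (t_T3P t_T3A (t_T3R t_T3A t_T3C))
    (fun δ hδ => TS.ts Pool.Agent.Helper73.RF.main δ hδ)

end Pool.Agent.Helper47.T3
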